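import Pool.Agent.Helper90.ST.Defs

set_option autoImplicit false

/-!
# Piece KF: basics on the group data of skew translation quadrangles
-/

namespace Pool.Agent.Helper90.ST

section KF

variable {G ι : Type} [Group G] {A : ι → Subgroup G} {S : Subgroup G} {s t : ℕ}

theorem IsKF.finite_G (h : IsKF A S s t) (hs : 0 < s) (ht : 0 < t) : Finite G := by
  apply Nat.finite_of_card_ne_zero
  rw [h.cardG]
  positivity

theorem IsKF.finite_ι (h : IsKF A S s t) : Finite ι := by
  apply Nat.finite_of_card_ne_zero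
  rw [h.cardI]
  omega

theorem IsKF.disj (h : IsKF A S s t) {i j : ι} (hij : i ≠ j) : ∀ a ∈ A i, a ∈ A j → a = 1 := by
  intro a ha hb
  refine h.K2 i j hij a ha a⁻¹ ((A j).inv_mem hb) ?_
  rw [mul_inv_cancel]
  exact S.one_mem

theorem IsKF.exists_other (h : IsKF A S s t) (ht : 0 < t) (i : ι) : ∃ j : ι, j ≠ i := by
  have := h.finite_ι
  have h2 : Nontrivial ι := by
    rw [← Finite.one_lt_card_iff_nontrivial, h.cardI]
    omega
  exact _root_.exists_ne i

theorem IsKF.inter_S (h : IsKF A S s t) (ht : 0 < t) (i : ι) : ∀ a ∈ A i, a ∈ S → a = 1 := by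
  intro a ha hb
  obtain ⟨j, hj⟩ := h.exists_other ht i
  refine h.K2 i j hj.symm a ha 1 (A j).one_mem ?_
  rw [mul_one]
  exact hb

theorem IsKF.card_SF_A (h : IsKF A S s t) [Fintype G] (i : ι) : (SF (A i)).card = s := by
  rw [card_SF, h.cardA]

theorem IsKF.card_SF_S (h : IsKF A S s t) [Fintype G] : (SF S).card = t := by
  rw [card_SF, h.cardS]

open Classical in
/-- the index set of the decomposition -/
noncomputable def KX (A : ι → Subgroup G) (S : Subgroup G) [Fintype G] [Fintype ι] (k : ι) :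
    Finset ((G × G) ⊕ (Σ _ : ι, G × G)) :=
  Finset.disjSum (SF (A k) ×ˢ SF S)
    (Finset.sigma (Finset.univ.erase k) (fun i => ((SF (A i)).erase 1) ×ˢ SF (A k)))

/-- the multiplication map of the decomposition -/
def KXm : (G × G) ⊕ (Σ _ : ι, G × G) → G :=
  Sum.elim (fun p => p.1 * p.2) (fun p => p.2.1 * p.2.2)

theorem IsKF.injOn (h : IsKF A S s t) (ht : 0 < t) [Fintype G] [Fintype ι] (k : ι) :
    Set.InjOn (KXm (G := G) (ι := ι)) (KX A S k : Set ((G × G) ⊕ (Σ _ : ι, G × G))) := by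
  classical
  have hn := h.normS
  rintro x hx y hy hxy
  rw [Finset.mem_coe, KX, Finset.mem_disjSum] at hx hy
  have hmix : ∀ (a σ : G) (i : ι) (a' b : G), a ∈ A k → σ ∈ S → i ≠ k → a' ∈ A i → a' ≠ 1 →
      b ∈ A k → a * σ ≠ a' * b := by
    intro a σ i a' b ha hσ hik ha' hne hb heq
    apply hne
    refine h.K2 i k hik a' ha' (b * a⁻¹) ((A k).mul_mem hb ((A k).inv_mem ha)) ?_
    rw [← mul_assoc, ← heq]
    exact hn.conj_mem σ hσ a
  rcases hx with ⟨⟨a, σ⟩, hp, rfl⟩ | ⟨⟨i, a, b⟩, hp, rfl⟩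
  · rw [Finset.mem_product, mem_SF, mem_SF] at hp
    rcases hy with ⟨⟨a', σ'⟩, hq, rfl⟩ | ⟨⟨i, a', b⟩, hq, rfl⟩
    · rw [Finset.mem_product, mem_SF, mem_SF] at hq
      simp only [KXm, Sum.elim_inl] at hxy hp hq
      have h1 : a'⁻¹ * a = 1 := by
        refine h.inter_S ht k _ ((A k).mul_mem ((A k).inv_mem hq.1) hp.1) ?_
        have : a'⁻¹ * a = σ' * σ⁻¹ := by
          rw [eq_mul_inv_iff_mul_eq, mul_assoc, hxy, inv_mul_cancel_left]
        rw [this]
        exact S.mul_mem hq.2 (S.inv_mem hp.2)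
      have h2 : a = a' := by
        rw [inv_mul_eq_one] at h1
        exact h1.symm
      subst h2
      have h3 : σ = σ' := mul_left_cancel hxy
      rw [h3]
    · rw [Finset.mem_sigma, Finset.mem_erase, Finset.mem_product, Finset.mem_erase, mem_SF,
        mem_SF] at hq
      exact absurd hxy (hmix a σ i a' b hp.1 hp.2 hq.1.1 hq.2.1.2 hq.2.1.1 hq.2.2)
  · rw [Finset.mem_sigma, Finset.mem_erase, Finset.mem_product, Finset.mem_erase, mem_SF,
      mem_SF] at hp
    simp only at hp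
    rcases hy with ⟨⟨a', σ'⟩, hq, rfl⟩ | ⟨⟨j, a', b'⟩, hq, rfl⟩
    · rw [Finset.mem_product, mem_SF, mem_SF] at hq
      exact absurd hxy.symm (hmix a' σ' i a b hq.1 hq.2 hp.1.1 hp.2.1.2 hp.2.1.1 hp.2.2)
    · rw [Finset.mem_sigma, Finset.mem_erase, Finset.mem_product, Finset.mem_erase, mem_SF,
        mem_SF] at hq
      simp only at hq
      simp only [KXm, Sum.elim_inr] at hxy
      have h0 : a'⁻¹ * a = b' * b⁻¹ := by
        rw [eq_mul_inv_iff_mul_eq, mul_assoc, hxy, inv_mul_cancel_left]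
      have hb : b' * b⁻¹ ∈ A k := (A k).mul_mem hq.2.2 ((A k).inv_mem hp.2.2)
      by_cases hij : i = j
      · subst hij
        have h1 : a'⁻¹ * a = 1 := by
          refine h.disj hp.1.1 _ ((A i).mul_mem ((A i).inv_mem hq.2.1.2) hp.2.1.2) ?_
          rw [h0]
          exact hb
        have h2 : a = a' := by
          rw [inv_mul_eq_one] at h1
          exact h1.symm
        subst h2
        have h3 : b = b' := mul_left_cancel hxy
        rw [h3]
      · exfalso
        apply hq.2.1.1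
        have := h.K1 j i k (Ne.symm hij) hp.1.1 hq.1.1 a'⁻¹ ((A j).inv_mem hq.2.1.2) a hp.2.1.2
          (by rw [h0]; exact hb)
        rwa [inv_eq_one] at this

theorem IsKF.card_KX (h : IsKF A S s t) (hs : 0 < s) [Fintype G] [Fintype ι] (k : ι) :
    (KX A S k).card = Fintype.card G := by
  classical
  have hι : Fintype.card ι = t + 1 := by rw [← Nat.card_eq_fintype_card, h.cardI]
  rw [KX, Finset.card_disjSum, Finset.card_product, Finset.card_sigma, h.card_SF_A, h.card_SF_S]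
  have h1 : ∀ i ∈ Finset.univ.erase k, (((SF (A i)).erase 1) ×ˢ SF (A k)).card = (s - 1) * s := by
    intro i _
    rw [Finset.card_product, Finset.card_erase_of_mem (by rw [mem_SF]; exact (A i).one_mem),
      h.card_SF_A, h.card_SF_A]
  rw [Finset.sum_congr rfl h1, Finset.sum_const, Finset.card_erase_of_mem (Finset.mem_univ k),
    Finset.card_univ, hι, ← Nat.card_eq_fintype_card, h.cardG, Nat.add_sub_cancel, smul_eq_mul]
  obtain ⟨r, rfl⟩ : ∃ r, s = r + 1 := ⟨s - 1, by omega⟩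
  rw [Nat.add_sub_cancel]
  ring

theorem IsKF.image_KX (h : IsKF A S s t) (hs : 0 < s) (ht : 0 < t) [Fintype G] [Fintype ι]
    [DecidableEq G] (k : ι) :
    (KX A S k).image (KXm (G := G) (ι := ι)) = Finset.univ := by
  apply Finset.eq_univ_of_card
  rw [Finset.card_image_of_injOn (h.injOn ht k), h.card_KX hs k]

theorem IsKF.sum_decomp (h : IsKF A S s t) (hs : 0 < s) (ht : 0 < t) [Fintype G] [Fintype ι]
    [DecidableEq G] [DecidableEq ι]
    {R : Type} [AddCommGroup R] (f : G → R) (k : ι) :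
    ∑ g, f g = (∑ a ∈ SF (A k), ∑ σ ∈ SF S, f (a * σ)) +
      ∑ i ∈ Finset.univ.erase k, ∑ a ∈ (SF (A i)).erase 1, ∑ b ∈ SF (A k), f (a * b) := by
  rw [← h.image_KX hs ht k, Finset.sum_image (h.injOn ht k), KX, Finset.sum_disjSum,
    Finset.sum_product, Finset.sum_sigma]
  simp only [KXm, Sum.elim_inl, Sum.elim_inr]
  congr 1
  refine Finset.sum_congr (by congr 1; exact Subsingleton.elim _ _) ?_
  intro i _
  rw [Finset.sum_product]
  refine Finset.sum_congr (by congr 1; exact Subsingleton.elim _ _) ?_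
  intro a _
  rfl

theorem IsKF.decomp (h : IsKF A S s t) (hs : 0 < s) (ht : 0 < t) (k : ι) (g : G) :
    (∃ a ∈ A k, ∃ σ ∈ S, g = a * σ) ∨ ∃ i, i ≠ k ∧ ∃ a ∈ A i, ∃ b ∈ A k, g = a * b := by
  classical
  have := h.finite_G hs ht
  have := h.finite_ι
  have := Fintype.ofFinite G
  have := Fintype.ofFinite ι
  have hg : g ∈ (KX A S k).image (KXm (G := G) (ι := ι)) := by
    rw [h.image_KX hs ht k]
    exact Finset.mem_univ g
  rw [Finset.mem_image] at hg
  obtain ⟨x, hx, rfl⟩ := hg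
  rw [KX, Finset.mem_disjSum] at hx
  rcases hx with ⟨⟨a, σ⟩, hp, rfl⟩ | ⟨⟨i, a, b⟩, hp, rfl⟩
  · rw [Finset.mem_product, mem_SF, mem_SF] at hp
    exact Or.inl ⟨a, hp.1, σ, hp.2, rfl⟩
  · rw [Finset.mem_sigma, Finset.mem_erase, Finset.mem_product, Finset.mem_erase, mem_SF,
      mem_SF] at hp
    exact Or.inr ⟨i, hp.1.1, a, hp.2.1.2, b, hp.2.2, rfl⟩

theorem IsKF.iSup_eq_top (h : IsKF A S s t) (hs : 1 < s) (ht : 0 < t) : (⨆ i, A i) = ⊤ := by
  have hn := h.normS
  have hfin := h.finite_ι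
  have hne : Nonempty ι := by
    rw [← not_isEmpty_iff]
    intro hem
    have := h.cardI
    rw [Nat.card_of_isEmpty] at this
    omega
  obtain ⟨k⟩ := hne
  obtain ⟨i, hik⟩ := h.exists_other ht k
  -- a nontrivial element of `A i`
  obtain ⟨x, hxi, hx1⟩ : ∃ x ∈ A i, x ≠ 1 := by
    have hfG := h.finite_G (by omega) ht
    have : Nontrivial (A i) := by
      rw [← Finite.one_lt_card_iff_nontrivial, h.cardA]
      exact hs
    obtain ⟨y, hy⟩ := _root_.exists_ne (1 : A i)
    exact ⟨y, y.2, fun hh => hy (Subtype.ext hh)⟩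
  have hxB : x ∉ A k ⊔ S := by
    intro hx
    rw [← SetLike.mem_coe, Subgroup.mul_normal, Set.mem_mul] at hx
    obtain ⟨a, ha, σ, hσ, hxe⟩ := hx
    rw [SetLike.mem_coe] at ha hσ
    have h1 : a⁻¹ * x ∈ S := by
      rw [← hxe, inv_mul_cancel_left]
      exact hσ
    have h2 : a⁻¹ = 1 := h.K2 k i hik.symm a⁻¹ ((A k).inv_mem ha) x hxi h1
    rw [h2, one_mul] at h1
    exact hx1 (h.inter_S ht i x hxi h1)
  have hout : ∀ g : G, g ∉ A k ⊔ S → g ∈ ⨆ i, A i := by
    intro g hg
    rcases h.decomp (by omega) ht k g with ⟨a, ha, σ, hσ, rfl⟩ | ⟨j, _, a, ha, b, hb, rfl⟩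
    · exact absurd (Subgroup.mul_mem_sup ha hσ) hg
    · exact (⨆ i, A i).mul_mem (Subgroup.mem_iSup_of_mem j ha) (Subgroup.mem_iSup_of_mem k hb)
  rw [eq_top_iff]
  intro g _
  by_cases hg : g ∈ A k ⊔ S
  · have h1 : g * x ∉ A k ⊔ S := fun hh => hxB (((A k ⊔ S).mul_mem_cancel_left hg).1 hh)
    exact ((⨆ i, A i).mul_mem_cancel_right (hout x hxB)).1 (hout _ h1)
  · exact hout g hg

theorem sum_mul_self (H : Subgroup G) [Fintype G] {R : Type} [AddCommGroup R] (f : G → R) :
    ∑ a ∈ SF H, ∑ b ∈ SF H, f (a * b) = (SF H).card • ∑ a ∈ SF H, f a := by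
  classical
  rw [← Finset.sum_const]
  refine Finset.sum_congr rfl ?_
  intro a ha
  rw [mem_SF] at ha
  refine Finset.sum_bij (fun b _ => a * b) ?_ ?_ ?_ ?_
  · intro b hb
    rw [mem_SF] at hb ⊢
    exact H.mul_mem ha hb
  · intro b _ b' _ hbb
    exact mul_left_cancel hbb
  · intro b hb
    rw [mem_SF] at hb
    exact ⟨a⁻¹ * b, by rw [mem_SF]; exact H.mul_mem (H.inv_mem ha) hb, by
      rw [mul_inv_cancel_left]⟩
  · intro b _
    rfl

theorem IsKF.sum_mul (h : IsKF A S s t) (hs : 0 < s) (ht : 0 < t) [Fintype G] [Fintype ι]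
    {R : Type} [AddCommGroup R] (f : G → R) :
    ∑ i, ∑ j, ∑ a ∈ SF (A i), ∑ b ∈ SF (A j), f (a * b)
      = (s + t) • (∑ i, ∑ a ∈ SF (A i), f a)
        - (∑ i, ∑ a ∈ SF (A i), ∑ σ ∈ SF S, f (a * σ)) + (t + 1) • ∑ g, f g := by
  classical
  have hι : Fintype.card ι = t + 1 := by rw [← Nat.card_eq_fintype_card, h.cardI]
  rw [Finset.sum_comm]
  have key : ∀ j : ι, ∑ i, ∑ a ∈ SF (A i), ∑ b ∈ SF (A j), f (a * b)
      = (s + t) • (∑ a ∈ SF (A j), f a) - (∑ a ∈ SF (A j), ∑ σ ∈ SF S, f (a * σ))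
        + ∑ g, f g := by
    intro j
    rw [← Finset.add_sum_erase _ _ (Finset.mem_univ j), sum_mul_self, h.card_SF_A]
    have h1 : ∀ i ∈ Finset.univ.erase j, ∑ a ∈ SF (A i), ∑ b ∈ SF (A j), f (a * b)
        = (∑ b ∈ SF (A j), f b) + ∑ a ∈ (SF (A i)).erase 1, ∑ b ∈ SF (A j), f (a * b) := by
      intro i _
      have h1 : (1 : G) ∈ SF (A i) := by rw [mem_SF]; exact (A i).one_mem
      rw [← Finset.add_sum_erase _ _ h1]
      simp only [one_mul]
    rw [Finset.sum_congr rfl h1, Finset.sum_add_distrib, Finset.sum_const,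
      Finset.card_erase_of_mem (Finset.mem_univ j), Finset.card_univ, hι, Nat.add_sub_cancel,
      h.sum_decomp hs ht f j, add_smul]
    abel
  rw [Finset.sum_congr rfl (fun j _ => key j), Finset.sum_add_distrib, Finset.sum_sub_distrib,
    Finset.sum_const, Finset.card_univ, hι, ← Finset.smul_sum]

theorem IsKF.pcp (h : IsKF A S s t) (hs : 0 < s) (ht : 0 < t) [S.Normal] :
    IsPCP (fun i => (A i).map (QuotientGroup.mk' S)) s where
  cardG := by
    have h1 := Subgroup.card_eq_card_quotient_mul_card_subgroup S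
    rw [h.cardG, h.cardS] at h1
    exact (Nat.eq_of_mul_eq_mul_right ht h1).symm
  cardH := by
    intro i
    have hinj : Function.Injective ((QuotientGroup.mk' S).comp (A i).subtype) := by
      rw [injective_iff_map_eq_one]
      intro a ha
      have h1 : (a : G) ∈ S := by
        rw [MonoidHom.comp_apply, Subgroup.coe_subtype, QuotientGroup.mk'_apply,
          QuotientGroup.eq_one_iff] at ha
        exact ha
      exact Subtype.ext (h.inter_S ht i _ a.2 h1)
    have hrange : (A i).map (QuotientGroup.mk' S) =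
        ((QuotientGroup.mk' S).comp (A i).subtype).range := by
      rw [MonoidHom.range_comp, Subgroup.range_subtype]
    rw [hrange, ← h.cardA i]
    exact (Nat.card_congr (MonoidHom.ofInjective hinj).toEquiv).symm
  disj := by
    intro i j hij x hx hy
    rw [Subgroup.mem_map] at hx hy
    obtain ⟨a, ha, rfl⟩ := hx
    obtain ⟨b, hb, hab⟩ := hy
    rw [QuotientGroup.mk'_apply, QuotientGroup.mk'_apply] at hab
    have h1 : a⁻¹ * b ∈ S := QuotientGroup.eq.1 hab.symm
    have h2 := h.K2 i j hij a⁻¹ ((A i).inv_mem ha) b hb h1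
    rw [inv_eq_one] at h2
    rw [h2]
    exact map_one _

end KF

end Pool.Agent.Helper90.ST
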